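import Mathlib

/-!
# The 27 weights: a kernel checked symmetry of the three-sums

`W` is the list of the 27 weights of the 27-dimensional representation of `E₆`, in coordinates
relative to six free parameters.  The multiset of sums of three different members of `W` is
symmetric under negation.  This is checked by sorting (own merge sort, structural recursion).
-/

namespace Pool.Agent.H6.T27

/-- vectors of integers of length six -/
abbrev V : Type := ℤ × ℤ × ℤ × ℤ × ℤ × ℤ

/-- lexicographic comparison (any Boolean function would do for the proofs) -/
def le (a b : V) : Bool :=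
  if a.1 < b.1 then true else if b.1 < a.1 then false else
  if a.2.1 < b.2.1 then true else if b.2.1 < a.2.1 then false else
  if a.2.2.1 < b.2.2.1 then true else if b.2.2.1 < a.2.2.1 then false else
  if a.2.2.2.1 < b.2.2.2.1 then true else if b.2.2.2.1 < a.2.2.2.1 then false else
  if a.2.2.2.2.1 < b.2.2.2.2.1 then true else if b.2.2.2.2.1 < a.2.2.2.2.1 then false else
  if a.2.2.2.2.2 ≤ b.2.2.2.2.2 then true else false

/-- merge of two lists, with fuel -/
def mrg : ℕ → List V → List V → List V
  | 0, a, b => a ++ b
  | _ + 1, [], b => b
  | _ + 1, a, [] => a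
  | n + 1, x :: a, y :: b => if le x y then x :: mrg n a (y :: b) else y :: mrg n (x :: a) b

theorem mrg_perm (n : ℕ) (a b : List V) : (mrg n a b).Perm (a ++ b) := by
  induction n generalizing a b with
  | zero => exact List.Perm.refl _
  | succ n ih =>
    cases a with
    | nil => exact List.Perm.refl _
    | cons x a =>
      cases b with
      | nil => simp [mrg]
      | cons y b =>
        simp only [mrg]
        split
        · exact (ih a (y :: b)).cons x
        · refine ((ih (x :: a) b).cons y).trans ?_
          exact List.perm_middle.symm

/-- split a list into two halves -/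
def spl : List V → List V × List V
  | [] => ([], [])
  | [x] => ([x], [])
  | x :: y :: l => (x :: (spl l).1, y :: (spl l).2)

theorem spl_perm : ∀ l : List V, ((spl l).1 ++ (spl l).2).Perm l
  | [] => List.Perm.refl _
  | [x] => List.Perm.refl _
  | x :: y :: l => by
    simp only [spl, List.cons_append]
    refine List.Perm.cons x ?_
    exact List.perm_middle.trans ((spl_perm l).cons y)

/-- merge sort with fuel -/
def srt : ℕ → List V → List V
  | 0, l => l
  | n + 1, l => match l with
    | [] => []
    | [x] => [x]
    | x :: y :: l => mrg 6000 (srt n (spl (x :: y :: l)).1) (srt n (spl (x :: y :: l)).2)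

theorem srt_perm (n : ℕ) (l : List V) : (srt n l).Perm l := by
  induction n generalizing l with
  | zero => exact List.Perm.refl _
  | succ n ih =>
    match l with
    | [] => exact List.Perm.refl _
    | [x] => exact List.Perm.refl _
    | x :: y :: l =>
      simp only [srt]
      refine (mrg_perm _ _ _).trans ?_
      exact ((ih _).append (ih _)).trans (spl_perm _)

/-- the coordinate vectors of `y₀, …, y₅` (with `y₅ = -(y₀ + ⋯ + y₄)`) -/
def ys : List V :=
  [(1,0,0,0,0,0), (0,1,0,0,0,0), (0,0,1,0,0,0), (0,0,0,1,0,0), (0,0,0,0,1,0), (-1,-1,-1,-1,-1,0)]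

/-- the 27 weights -/
def W : List V :=
  ys.map (fun v => v + (0,0,0,0,0,1)) ++ ys.map (fun v => v - (0,0,0,0,0,1)) ++
    (ys.sublistsLen 2).map (fun l => - l.sum)

/-- the 2925 sums of three -/
def S3 : List V := (W.sublistsLen 3).map List.sum

theorem perm_of_srt (l l' : List V) (h : srt 13 l = srt 13 l') : l.Perm l' := by
  have h1 := srt_perm 13 l
  rw [h] at h1
  exact h1.symm.trans (srt_perm 13 l')

theorem key : srt 13 S3 = srt 13 (S3.map Neg.neg) := by decide +kernel

theorem S3_perm : S3.Perm (S3.map Neg.neg) := perm_of_srt _ _ key

end Pool.Agent.H6.T27
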